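import Pool.Agent.Helper60.RT.Defs2

/-!
# Project GM (MP_fb29e9_nt): generic one-parameter families of ovals, all centres: exponent 5/9. Definitions

`Fam`: phases `u q(s, t)`, `u = k.1`, `t = k.2 / k.1`, with the derivatives `q1`, `p = q_tt`, `q3`, `q4` in `t`; `ps = ∂p/∂s`; `x = - q3 / (3 p)`, `J = ∂x/∂s`, `Jt = ∂J/∂t`. Near the slope `t`: phase of the member `(r, s)`:
`u (affine + A₂ τ² + A₃ τ³ + O(τ⁴))`, `A₂ = r p / 2`, `A₃ = - x A₂`.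
-/

open MeasureTheory Real Set Filter Topology

set_option autoImplicit false

namespace Pool.Agent.Helper60.GM

open Pool.Agent.Helper22.AE
open Pool.Agent.Helper92.GC (dt tp Tq uu tt arc dd sqa m6)
open Pool.Agent.Helper92.DT (m12 IsMul12)
open Pool.Agent.Helper60.LT (Fr Tf xf yf df vf fr ac co Cut BB PP)
open Pool.Agent.Helper60.QL (nm Cone)
open Pool.Agent.Helper60.RT (R2 cn FR sp Pr prs ctr lf2 ln2)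

/-- a family of phases with its derivatives -/
structure Fam where
  q : ℝ → ℝ → ℝ
  q1 : ℝ → ℝ → ℝ
  p : ℝ → ℝ → ℝ
  q3 : ℝ → ℝ → ℝ
  q4 : ℝ → ℝ → ℝ
  ps : ℝ → ℝ → ℝ
  J : ℝ → ℝ → ℝ
  Jt : ℝ → ℝ → ℝ

/-- the shear coordinate -/
noncomputable def Fam.x (F : Fam) (s t : ℝ) : ℝ := -F.q3 s t / (3 * F.p s t)

/-- bounds for the family on `s ∈ [-1, 2]`, `|t| ≤ 12`; the zeros of `J(s, ·)` are simple -/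
structure Fam.Ok (F : Fam) (B : ℝ) : Prop where
  B1 : 1 ≤ B
  cont : Continuous fun z : ℝ × ℝ => F.q z.1 z.2
  hq : ∀ s ∈ Icc (-1 : ℝ) 2, ∀ t : ℝ, |t| ≤ 12 → HasDerivAt (F.q s) (F.q1 s t) t
  hq1 : ∀ s ∈ Icc (-1 : ℝ) 2, ∀ t : ℝ, |t| ≤ 12 → HasDerivAt (F.q1 s) (F.p s t) t
  hp : ∀ s ∈ Icc (-1 : ℝ) 2, ∀ t : ℝ, |t| ≤ 12 → HasDerivAt (F.p s) (F.q3 s t) t
  hq3 : ∀ s ∈ Icc (-1 : ℝ) 2, ∀ t : ℝ, |t| ≤ 12 → HasDerivAt (F.q3 s) (F.q4 s t) t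
  hps : ∀ s ∈ Icc (-1 : ℝ) 2, ∀ t : ℝ, |t| ≤ 12 → HasDerivAt (fun s => F.p s t) (F.ps s t) s
  hx : ∀ s ∈ Icc (-1 : ℝ) 2, ∀ t : ℝ, |t| ≤ 12 → HasDerivAt (fun s => F.x s t) (F.J s t) s
  hJ : ∀ s ∈ Icc (-1 : ℝ) 2, ∀ t : ℝ, |t| ≤ 12 → HasDerivAt (F.J s) (F.Jt s t) t
  p_lo : ∀ s ∈ Icc (-1 : ℝ) 2, ∀ t : ℝ, |t| ≤ 12 → 1 ≤ B * F.p s t
  bd : ∀ s ∈ Icc (-1 : ℝ) 2, ∀ t : ℝ, |t| ≤ 12 → |F.q s t| ≤ B ∧ |F.q1 s t| ≤ B ∧ |F.p s t| ≤ B ∧ |F.q3 s t| ≤ B ∧ |F.q4 s t| ≤ B ∧ |F.ps s t| ≤ B ∧ |F.J s t| ≤ B ∧ |F.Jt s t| ≤ B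
  lip : ∀ s ∈ Icc (-1 : ℝ) 2, ∀ s' ∈ Icc (-1 : ℝ) 2, ∀ t : ℝ, |t| ≤ 12 → |F.p s t - F.p s' t| ≤ B * |s - s'| ∧ |F.q4 s t - F.q4 s' t| ≤ B * |s - s'|
  lipJ : ∀ s ∈ Icc (-1 : ℝ) 2, ∀ s' ∈ Icc (-1 : ℝ) 2, ∀ t t' : ℝ, |t| ≤ 12 → |t'| ≤ 12 →
    |F.J s t - F.J s' t'| ≤ B * (|s - s'| + |t - t'|) ∧ |F.Jt s t - F.Jt s' t'| ≤ B * (|s - s'| + |t - t'|)
  nd : ∀ s ∈ Icc (-1 : ℝ) 2, ∀ t : ℝ, |t| ≤ 12 → 1 ≤ B * (|F.J s t| + |F.Jt s t|)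

/-- the twelfth moment over the centres of the member `(r, s)` -/
noncomputable def mf (F : Fam) (S : Finset (ℤ × ℤ)) (r s : ℝ) : ℝ := m12 S (fun k => ee (r * ((k.1 : ℝ) * F.q s (tt 0 k))))

/-- the moment over `|s - s₀| ≤ l` and the radii, divided by `l` -/
noncomputable def RN (F : Fam) (s₀ l B X : ℝ) (S : Finset (ℤ × ℤ)) : ENNReal :=
  ENNReal.ofReal l⁻¹ * ∫⁻ s in Icc (s₀ - l) (s₀ + l), ∫⁻ r in Icc (X / B) (B * X), ENNReal.ofReal (mf F S r s)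

/-- the interval of `s` is admissible -/
def In (s₀ l : ℝ) : Prop := 0 < l ∧ -1 ≤ s₀ - l ∧ s₀ + l ≤ 2

/-- `|J|` is about `σ` at `s₀` on all slopes of `S` -/
def Gd (F : Fam) (s₀ σ Λ : ℝ) (S : Finset (ℤ × ℤ)) : Prop := ∀ k ∈ S, σ ≤ |F.J s₀ (tt 0 k)| ∧ |F.J s₀ (tt 0 k)| ≤ Λ * σ

/-- the coordinates of the member `(r, s)` near the slope `t` -/
noncomputable def Ar (F : Fam) (t : ℝ) (z : R2) : R2 := (z.1 * F.p z.2 t / 2, -(F.x z.2 t * (z.1 * F.p z.2 t / 2)))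

/-- the region of the family -/
noncomputable def OR (F : Fam) (t s₀ l B X : ℝ) : Set R2 := Ar F t '' (Icc (X / B) (B * X) ×ˢ Icc (s₀ - l) (s₀ + l))

/-- one step -/
def StepG (ε lam Λ : ℝ) (M n : ℕ) (B₀ B C B' E : ℝ) (m₁ : ℕ) : Prop :=
  ∀ (F : Fam), F.Ok B₀ → ∀ (m m' r : ℕ) (X H κ σ s₀ l : ℝ) (S : Finset (ℤ × ℤ)), m₁ ≤ m → m ≤ m' → 1 ≤ X → 1 ≤ H → C ≤ κ → Cone H lam S → 0 < σ →
    In s₀ (2 * l) → C * l ≤ σ → Gd F s₀ σ Λ (arc 0 S (M ^ m) r) → C * κ * (M : ℝ) ^ (3 * m') ≤ σ * (l * (X * H)) → C * κ * (M : ℝ) ^ (3 * m') ≤ σ * (M : ℝ) ^ (4 * m) →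
      RN F s₀ l B X (arc 0 S (M ^ m) r) ^ (1 / 6 : ℝ) ≤ ENNReal.ofReal (C * κ * (M : ℝ) ^ (ε * (m' : ℝ))) *
        ∑ r' ∈ Finset.range (M ^ m'), (RN F s₀ (2 * l) B' X (arc 0 (arc 0 S (M ^ m) r) (M ^ m') r') +
          ENNReal.ofReal (E * (X / (σ * l)) * (S.card : ℝ) ^ 12 * κ⁻¹ ^ n)) ^ (1 / 6 : ℝ)

/-- `T y²` of the frame of `n`, divided by `r` -/
noncomputable def yG (F : Fam) (n : ℤ × ℤ) (s : ℝ) : ℝ := F.p s (sp n) / (n.1 : ℝ) ^ 3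

/-- the shear of the frame of `n` -/
noncomputable def xG (F : Fam) (n : ℤ × ℤ) (s : ℝ) : ℝ := ((co n).1 : ℝ) / n.1 + F.x s (sp n) / (n.1 : ℝ) ^ 2

/-- the part of a family of arcs -/
noncomputable def SG (F : Fam) (s₀ l B X : ℝ) (G : Finset (ℤ × ℤ)) (N : ℕ) (P : Finset ℕ) : ENNReal :=
  (∑ r ∈ P, (RN F s₀ l B X (arc 0 G N r) + 1) ^ (1 / 6 : ℝ)) ^ (6 : ℝ)

/-- the standing hypotheses on the parameters of a good sector of level `m₀` at `s₀` -/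
structure ParG (F : Fam) (M : ℕ) (ε₀ L X σ s₀ l : ℝ) (N m₀ m₂ r₀ : ℕ) : Prop where
  X1 : 1 ≤ X
  N1 : 1 ≤ N
  lo : X ^ (1 / 10 : ℝ) ≤ N
  hi : (N : ℝ) ≤ X ^ (4 / 9 + 1 / 1000 : ℝ)
  m : m₀ ≤ m₂
  k1 : (M : ℝ) ^ (4 * m₂) ≤ X * N
  σ0 : 0 < σ
  gd : Gd F s₀ σ 4 (arc 0 (cn N) (M ^ m₀) r₀)
  σm : (X * N) ^ ε₀ ≤ σ * (M : ℝ) ^ m₀
  inn : In s₀ l
  l1 : 1 ≤ l * (M : ℝ) ^ m₀
  l2 : l * (M : ℝ) ^ m₀ ≤ L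

end Pool.Agent.Helper60.GM
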