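import Pool.Agent.Helper60.GM.Loc
import Pool.Agent.Helper58.GM.B
import Pool.Agent.Helper3.GM.ClassI
import Pool.Agent.Helper5.GM.IIGv
import Pool.Agent.Helper70.GM.ClassesBFin
import Pool.Agent.Helper78.GM.IterG
import Pool.Agent.Helper86.GM.StepG
import Pool.Agent.Helper33.RT.K
import Pool.Agent.Helper77.RT.Num
import Pool.Agent.Helper58.RT.B2
import Pool.Agent.Helper82.RT.D1

/-!
# GM-E1c: the classes of arcs (case A), the bound of a good sector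
-/

open MeasureTheory Real Set Filter Topology

set_option autoImplicit false

namespace Pool.Agent.Helper60.GM

open Pool.Agent.Helper22.AE
open Pool.Agent.Helper92.GC (dt tp Tq uu tt arc dd sqa m6)
open Pool.Agent.Helper92.DT (m12 IsMul12)
open Pool.Agent.Helper60.LT (Fr Tf xf yf df vf fr ac co Cut BB PP)
open Pool.Agent.Helper60.QL (nm Cone)
open Pool.Agent.Helper60.RT (R2 cn FR sp Pr prs ctr lf2 ln2 Dec12 classify arc_near num_bds cn_cone dec12_all)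

private theorem rpow6_root (x : ENNReal) : (x ^ (6 : ℝ)) ^ (1 / 6 : ℝ) = x := by
  rw [← ENNReal.rpow_mul]
  norm_num

private theorem rpow6_root' (x : ENNReal) : (x ^ (1 / 6 : ℝ)) ^ (6 : ℝ) = x := by
  rw [← ENNReal.rpow_mul]
  norm_num

/-- a family of arcs covered by classes -/
private theorem ss_cover {ι : Type} (F : Fam) (s₀ l B X : ℝ) (G : Finset (ℤ × ℤ)) (N : ℕ) (T : Finset ι) (P : ι → Finset ℕ) (Q : Finset ℕ)
    (hcov : ∀ r ∈ Q, ∃ i ∈ T, r ∈ P i) {b : ENNReal} (hb : ∀ i ∈ T, SG F s₀ l B X G N (P i) ≤ b) :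
    SG F s₀ l B X G N Q ≤ ENNReal.ofReal ((T.card : ℝ) ^ 6) * b := by
  classical
  obtain ⟨g, hg⟩ : ∃ g : ℕ → ENNReal, ∀ r, g r = (RN F s₀ l B X (arc 0 G N r) + 1) ^ (1 / 6 : ℝ) := ⟨_, fun _ => rfl⟩
  have hS : ∀ R : Finset ℕ, SG F s₀ l B X G N R = (∑ r ∈ R, g r) ^ (6 : ℝ) := by
    intro R
    unfold SG
    congr 1
    exact Finset.sum_congr rfl fun r _ => (hg r).symm
  have h1 : ∑ r ∈ Q, g r ≤ ∑ i ∈ T, ∑ r ∈ P i, g r := by
    calc ∑ r ∈ Q, g r ≤ ∑ r ∈ Q, ∑ i ∈ T, if r ∈ P i then g r else 0 := by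
          refine Finset.sum_le_sum fun r hr => ?_
          obtain ⟨i, hi, hri⟩ := hcov r hr
          have h2 : (if r ∈ P i then g r else 0) ≤ ∑ i ∈ T, if r ∈ P i then g r else 0 :=
            Finset.single_le_sum (f := fun i => if r ∈ P i then g r else 0) (fun _ _ => zero_le) hi
          rwa [if_pos hri] at h2
      _ = ∑ i ∈ T, ∑ r ∈ Q, if r ∈ P i then g r else 0 := Finset.sum_comm
      _ ≤ _ := by
          refine Finset.sum_le_sum fun i _ => ?_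
          rw [← Finset.sum_filter]
          exact Finset.sum_le_sum_of_subset fun r hr => (Finset.mem_filter.1 hr).2
  have h2 : ∀ i ∈ T, ∑ r ∈ P i, g r ≤ b ^ (1 / 6 : ℝ) := by
    intro i hi
    have h3 := hb i hi
    rw [hS] at h3
    have h4 := ENNReal.rpow_le_rpow h3 (by norm_num : (0 : ℝ) ≤ 1 / 6)
    rwa [rpow6_root] at h4
  have h3 : ∑ r ∈ Q, g r ≤ (T.card : ENNReal) * b ^ (1 / 6 : ℝ) := by
    refine h1.trans ((Finset.sum_le_sum h2).trans (le_of_eq ?_))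
    rw [Finset.sum_const, nsmul_eq_mul]
  rw [hS]
  refine (ENNReal.rpow_le_rpow h3 (by norm_num : (0 : ℝ) ≤ 6)).trans (le_of_eq ?_)
  rw [ENNReal.mul_rpow_of_nonneg _ _ (by norm_num : (0 : ℝ) ≤ 6), rpow6_root']
  congr 1
  have h5 : (6 : ℝ) = ((6 : ℕ) : ℝ) := by norm_num
  rw [h5, ENNReal.rpow_natCast, ENNReal.ofReal_pow (Nat.cast_nonneg _), ENNReal.ofReal_natCast]

private theorem RN_empty (F : Fam) (s₀ l B X : ℝ) : RN F s₀ l B X ∅ = 0 := by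
  unfold RN mf m12
  simp [tp]

private theorem cn_card (N : ℕ) : ((cn N).card : ℝ) ≤ 10 * (N : ℝ) ^ 2 := by
  by_cases hN : N = 0
  · have h1 : cn N = ∅ := by
      rw [hN]
      unfold cn sqa
      ext k
      simp
    rw [h1]
    simp
  have hN1 : 1 ≤ N := Nat.one_le_iff_ne_zero.2 hN
  have hc := (cn_cone hN1).2
  have h1 : cn N ⊆ (Finset.Icc (0 : ℤ) (2 * N - 1)) ×ˢ (Finset.Icc (-(2 * N - 1) : ℤ) (2 * N - 1)) := by
    intro k hk
    obtain ⟨h2, h3, h4⟩ := hc k hk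
    have h5 : k.1 < 2 * (N : ℤ) := by exact_mod_cast h3
    have h6 : (N : ℤ) ≤ k.1 := by exact_mod_cast h2
    have h7 : -k.1 < k.2 ∧ k.2 ≤ k.1 := by
      unfold cn at hk
      exact (Finset.mem_filter.1 hk).2
    rw [Finset.mem_product, Finset.mem_Icc, Finset.mem_Icc]
    refine ⟨⟨?_, ?_⟩, ?_, ?_⟩ <;> omega
  have h2 := Finset.card_le_card h1
  rw [Finset.card_product, Int.card_Icc, Int.card_Icc] at h2
  have h3 : (2 * (N : ℤ) - 1 + 1 - 0).toNat = 2 * N := by omega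
  have h4 : (2 * (N : ℤ) - 1 + 1 - -(2 * (N : ℤ) - 1)).toNat = 4 * N - 1 := by omega
  rw [h3, h4] at h2
  have h5 : 2 * N * (4 * N - 1) ≤ 10 * N ^ 2 := by
    calc 2 * N * (4 * N - 1) ≤ 2 * N * (4 * N) := Nat.mul_le_mul_left _ (Nat.sub_le _ _)
      _ ≤ 10 * N ^ 2 := by nlinarith only [Nat.zero_le (N ^ 2)]
  exact_mod_cast h2.trans h5

/-- the number of classes -/
private theorem log_cls {η : ℝ} (hη : 0 < η) : ∃ C : ℝ, 1 ≤ C ∧ ∀ (X : ℝ) (J : ℕ), 1 ≤ X → (J : ℝ) ≤ 1 + 4 * log X → ((3 * J : ℕ) : ℝ) ^ 6 ≤ C * X ^ (η / 2) := by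
  refine ⟨(3 * (1 + 48 / η)) ^ 6, one_le_pow₀ ?_, ?_⟩
  · have : 0 ≤ 48 / η := by positivity
    linarith
  intro X J hX hJ
  have hX0 : 0 < X := by linarith
  have h1 : log X ≤ X ^ (η / 12) / (η / 12) := log_le_rpow_div hX0.le (by positivity)
  have h2 : 1 ≤ X ^ (η / 12) := one_le_rpow hX (by positivity)
  have h3 : ((3 * J : ℕ) : ℝ) ≤ 3 * (1 + 48 / η) * X ^ (η / 12) := by
    push_cast
    have h4 : 4 * (X ^ (η / 12) / (η / 12)) = 48 / η * X ^ (η / 12) := by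
      field_simp
      norm_num
    have h5 : (J : ℝ) ≤ 1 + 48 / η * X ^ (η / 12) := by
      rw [← h4]
      linarith
    have h6 : 3 * (1 + 48 / η) * X ^ (η / 12) = 3 * (X ^ (η / 12) + 48 / η * X ^ (η / 12)) := by ring
    rw [h6]
    linarith only [hJ, h1, h2, h4]
  calc ((3 * J : ℕ) : ℝ) ^ 6 ≤ (3 * (1 + 48 / η) * X ^ (η / 12)) ^ 6 := pow_le_pow_left₀ (Nat.cast_nonneg _) h3 6
    _ = (3 * (1 + 48 / η)) ^ 6 * X ^ (η / 2) := by
        rw [mul_pow, ← rpow_natCast (X ^ (η / 12)) 6, ← rpow_mul hX0.le]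
        congr 2
        push_cast
        ring

private theorem FR_pos {X N : ℝ} (hX : 1 ≤ X) (hN : 1 ≤ N) : 1 ≤ FR X N ∧ X * N ^ 12 ≤ FR X N := by
  have hX0 : 0 < X := by linarith
  have hN0 : 0 < N := by linarith
  have h1 : X * N ^ 12 ≤ FR X N := by
    unfold FR
    have : 0 ≤ N ^ 15 * X ^ (-(1 / 3) : ℝ) := by positivity
    exact mul_le_mul_of_nonneg_left (by linarith only [this]) hX0.le
  exact ⟨(one_le_mul_of_one_le_of_one_le hX (one_le_pow₀ hN)).trans h1, h1⟩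

/-- case A: all arcs -/
theorem classesA {η ε₀ B₀ B L : ℝ} {M : ℕ} (hη : 0 < η) (hε₀ : 0 < ε₀) (hB₀ : 1 ≤ B₀) (hB : 1 ≤ B) (hL : 1 ≤ L) (hM : 2 ≤ M) : ∃ C : ℝ, 1 ≤ C ∧
    ∀ (F : Fam), F.Ok B₀ → ∀ (X σ s₀ l : ℝ) (N m₀ m₂ r₀ : ℕ), ParG F M ε₀ L X σ s₀ l N m₀ m₂ r₀ → X * N < (M : ℝ) ^ (4 * m₂ + 4) →
        SG F s₀ l B X (arc 0 (cn N) (M ^ m₀) r₀) (M ^ m₂) (Finset.range (M ^ m₂)) ≤ ENNReal.ofReal (C * X ^ η * FR X N) := by
  classical
  have hη2 : 0 < η / 2 := by positivity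
  obtain ⟨C₁, hC₁, hI⟩ := class_IG hη2 hε₀ hB₀ hB hL hM
  obtain ⟨C₂, hC₂, hII⟩ := class_IIG hη2 hε₀ hB₀ hB hL hM
  have hMr : (2 : ℝ) ≤ (M : ℝ) := by exact_mod_cast hM
  have hM1 : (1 : ℝ) ≤ (M : ℝ) := by linarith
  have hM0 : (0 : ℝ) < (M : ℝ) := by linarith
  have hb1 : (1 : ℝ) ≤ 12 ^ 4 * (M : ℝ) ^ 4 := one_le_mul_of_one_le_of_one_le (by norm_num) (one_le_pow₀ hM1)
  obtain ⟨C₃, hC₃, hnum⟩ := num_bds hb1
  obtain ⟨C₄, hC₄, hlog⟩ := log_cls hη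
  obtain ⟨K₁, hK₁⟩ : ∃ K₁ : ℝ, K₁ = 24 ^ 4 * (M : ℝ) ^ 4 := ⟨_, rfl⟩
  have hK₁0 : 0 < K₁ := by rw [hK₁]; positivity
  obtain ⟨C₅, hC₅⟩ : ∃ C₅ : ℝ, C₅ = 24 ^ 6 * (2 * B * (10 ^ 12 * K₁ ^ 12) + 1) := ⟨_, rfl⟩
  obtain ⟨C, hC⟩ : ∃ C : ℝ, C = C₄ * (C₁ + C₂ + C₃) + C₅ := ⟨_, rfl⟩
  have hC₅0 : 0 ≤ C₅ := by
    rw [hC₅]
    have hB0 : 0 < B := by linarith
    positivity
  have hCC : C₄ * (C₁ + C₂ + C₃) ≤ C := by
    rw [hC]
    linarith
  have hCC5 : C₅ ≤ C := by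
    rw [hC]
    have : 0 ≤ C₄ * (C₁ + C₂ + C₃) := by positivity
    linarith
  refine ⟨C, ?_, ?_⟩
  · have : 1 ≤ C₄ * (C₁ + C₂ + C₃) := one_le_mul_of_one_le_of_one_le hC₄ (by linarith)
    linarith
  intro F hF₀ X σ s₀ l N m₀ m₂ r₀ hP hk2
  have hX := hP.X1
  have hN := hP.N1
  have hNr : (1 : ℝ) ≤ N := by exact_mod_cast hN
  have hX0 : 0 < X := by linarith
  have hN0 : (0 : ℝ) < N := by linarith only [hNr]
  have hF := FR_pos hX hNr
  have hXη : 1 ≤ X ^ η := one_le_rpow hX hη.le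
  have hXη2 : 1 ≤ X ^ (η / 2) := one_le_rpow hX hη2.le
  have hMm2 : 0 < (M : ℝ) ^ m₂ := by positivity
  have hM21 : 1 ≤ (M : ℝ) ^ m₂ := one_le_pow₀ hM1
  have hM22 : (M : ℝ) ^ (4 * m₂) = ((M : ℝ) ^ m₂) ^ 4 := by
    rw [← pow_mul]
    congr 1
    ring
  have hk1 := hP.k1
  rw [hM22] at hk1
  obtain ⟨G, hG⟩ : ∃ G : Finset (ℤ × ℤ), G = arc 0 (cn N) (M ^ m₀) r₀ := ⟨_, rfl⟩
  have hGs : G ⊆ cn N := by
    rw [hG]
    exact Finset.filter_subset _ _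
  rw [← hG]
  by_cases hsm : (M : ℝ) ^ m₂ < 24
  · -- small
    have hK : X * N ≤ K₁ := by
      refine hk2.le.trans ?_
      rw [hK₁, pow_add, hM22]
      exact mul_le_mul_of_nonneg_right (pow_le_pow_left₀ hMm2.le hsm.le 4) (by positivity)
    have hNK : (N : ℝ) ≤ K₁ := by
      refine le_trans ?_ hK
      nlinarith only [hX]
    have h1 : ∀ r ∈ Finset.range (M ^ m₂), (RN F s₀ l B X (arc 0 G (M ^ m₂) r) + 1) ^ (1 / 6 : ℝ) ≤
        ENNReal.ofReal ((2 * B * (10 ^ 12 * K₁ ^ 12) + 1) * FR X N) ^ (1 / 6 : ℝ) := by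
      intro r _
      refine ENNReal.rpow_le_rpow ?_ (by norm_num)
      have h2 := RN_triv (F := F) (s₀ := s₀) (B := B) hP.inn.1 hB hX0.le (arc 0 G (M ^ m₂) r)
      have h3 : ((arc 0 G (M ^ m₂) r).card : ℝ) ≤ 10 * (N : ℝ) ^ 2 := by
        refine le_trans ?_ (cn_card N)
        exact_mod_cast Finset.card_le_card ((Finset.filter_subset _ _).trans hGs)
      have hB0 : 0 < B := by linarith
      have h4 : 2 * B * X * ((arc 0 G (M ^ m₂) r).card : ℝ) ^ 12 ≤ 2 * B * (10 ^ 12 * K₁ ^ 12) * FR X N := by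
        calc 2 * B * X * ((arc 0 G (M ^ m₂) r).card : ℝ) ^ 12 ≤ 2 * B * X * (10 * (N : ℝ) ^ 2) ^ 12 := by (clear * - h3 hB hX; gcongr)
          _ = 2 * B * (10 ^ 12 * (N : ℝ) ^ 12) * (X * (N : ℝ) ^ 12) := by ring
          _ ≤ 2 * B * (10 ^ 12 * K₁ ^ 12) * FR X N := by
              refine mul_le_mul ?_ hF.2 (by positivity) (by positivity)
              gcongr
      have h5 : (1 : ENNReal) = ENNReal.ofReal 1 := ENNReal.ofReal_one.symm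
      rw [h5]
      refine (add_le_add_left (h2.trans (ENNReal.ofReal_le_ofReal h4)) _).trans ?_
      have hF0 : 0 ≤ FR X N := by linarith only [hF.1]
      rw [← ENNReal.ofReal_add (by positivity) (by norm_num)]
      refine ENNReal.ofReal_le_ofReal ?_
      have := hF.1
      linarith only [this]
    have h6 : SG F s₀ l B X G (M ^ m₂) (Finset.range (M ^ m₂)) ≤ ((24 : ENNReal) * ENNReal.ofReal ((2 * B * (10 ^ 12 * K₁ ^ 12) + 1) * FR X N) ^ (1 / 6 : ℝ)) ^ (6 : ℝ) := by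
      unfold SG
      refine ENNReal.rpow_le_rpow ?_ (by norm_num)
      refine (Finset.sum_le_sum h1).trans ?_
      rw [Finset.sum_const, Finset.card_range, nsmul_eq_mul]
      refine mul_le_mul_left ?_ _
      have h7 : M ^ m₂ < 24 := by exact_mod_cast hsm
      exact_mod_cast h7.le
    refine h6.trans ?_
    rw [ENNReal.mul_rpow_of_nonneg _ _ (by norm_num : (0 : ℝ) ≤ 6), rpow6_root']
    have h8 : (24 : ENNReal) ^ (6 : ℝ) = ENNReal.ofReal (24 ^ 6) := by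
      have h5 : (6 : ℝ) = ((6 : ℕ) : ℝ) := by norm_num
      rw [h5, ENNReal.rpow_natCast, ENNReal.ofReal_pow (by norm_num)]
      norm_num
    rw [h8, ← ENNReal.ofReal_mul (by positivity)]
    refine ENNReal.ofReal_le_ofReal ?_
    have hF0 : 0 ≤ FR X N := by linarith only [hF.1]
    have hC0 : 0 ≤ C := hC₅0.trans hCC5
    calc 24 ^ 6 * ((2 * B * (10 ^ 12 * K₁ ^ 12) + 1) * FR X N) = C₅ * 1 * FR X N := by rw [hC₅]; ring
      _ ≤ C * X ^ η * FR X N := by gcongr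
  -- the main case
  push Not at hsm
  obtain ⟨D, hD⟩ : ∃ D : ℝ, D = √((M : ℝ) ^ m₂ / 24) := ⟨_, rfl⟩
  have hD2 : 24 * D ^ 2 = (M : ℝ) ^ m₂ := by
    rw [hD, sq_sqrt (by positivity)]
    field_simp
  have hD1 : 1 ≤ D := by
    rw [hD]
    refine one_le_sqrt.2 ?_
    rw [one_le_div (by norm_num)]
    exact hsm
  have hDM : D ≤ (M : ℝ) ^ m₂ := by
    rw [← hD2]
    nlinarith only [hsm, hD2, hD1]
  obtain ⟨J, hJ⟩ : ∃ J : ℕ, J = Nat.log 2 (M ^ m₂) + 1 := ⟨_, rfl⟩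
  have hMn0 : M ^ m₂ ≠ 0 := (Nat.pow_pos (by omega)).ne'
  have hJlt : ∀ j : ℕ, (2 : ℝ) ^ j ≤ (M : ℝ) ^ m₂ → j < J := by
    intro j hj
    have h1 : 2 ^ j ≤ M ^ m₂ := by exact_mod_cast hj
    have h2 : j ≤ Nat.log 2 (M ^ m₂) := Nat.le_log_of_pow_le (by norm_num) h1
    omega
  have hXN : X * N ≤ X ^ 2 := by
    have h1 : (N : ℝ) ≤ X := by
      refine hP.hi.trans ?_
      calc X ^ (4 / 9 + 1 / 1000 : ℝ) ≤ X ^ (1 : ℝ) := rpow_le_rpow_of_exponent_le hX (by norm_num)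
        _ = X := rpow_one X
    nlinarith only [h1, hX]
  have hMX : (M : ℝ) ^ m₂ ≤ X ^ 2 := by
    refine le_trans ?_ (hk1.trans hXN)
    exact le_self_pow₀ hM21 (by norm_num)
  have hJle : (J : ℝ) ≤ 1 + 4 * log X := by
    have h1 : (2 : ℝ) ^ (Nat.log 2 (M ^ m₂)) ≤ X ^ 2 := by
      refine le_trans ?_ hMX
      have := Nat.pow_log_le_self 2 hMn0
      exact_mod_cast this
    have h2 := log_le_log (by positivity) h1
    rw [log_pow, log_pow] at h2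
    have h3 : (1 : ℝ) / 2 ≤ log 2 := by
      have := Real.log_two_gt_d9
      linarith only [this]
    have h4 : (Nat.log 2 (M ^ m₂) : ℝ) * (1 / 2) ≤ (Nat.log 2 (M ^ m₂) : ℝ) * log 2 := mul_le_mul_of_nonneg_left h3 (Nat.cast_nonneg _)
    rw [hJ]
    push_cast at h2 ⊢
    linarith only [h2, h4]
  -- the classes
  obtain ⟨PI, hPI⟩ : ∃ PI : ℕ → Finset ℕ, ∀ i, PI i = (Finset.range (M ^ m₂)).filter (fun r => |ctr (M ^ m₂) r - ctr (M ^ m₀) r₀| ≤ 12 / (M ^ m₀ : ℕ) ∧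
      ∃ n : ℤ × ℤ, Pr n ∧ (2 : ℝ) ^ i ≤ n.1 ∧ (n.1 : ℝ) ≤ 2 * 2 ^ i ∧ 24 * (n.1 : ℝ) ^ 2 ≤ (M : ℝ) ^ m₂ ∧ |sp n - ctr (M ^ m₂) r| ≤ 24 / (M ^ m₂ : ℕ)) := ⟨_, fun _ => rfl⟩
  obtain ⟨PJ, hPJ⟩ : ∃ PJ : ℕ → Finset ℕ, ∀ i, PJ i = (Finset.range (M ^ m₂)).filter (fun r => D ≤ 2 * 2 ^ i ∧ (|ctr (M ^ m₂) r - ctr (M ^ m₀) r₀| ≤ 12 / (M ^ m₀ : ℕ) ∧
      (∀ n : ℤ × ℤ, Pr n → (n.1 : ℝ) ≤ D → 24 / (M ^ m₂ : ℕ) < |sp n - ctr (M ^ m₂) r|) ∧
      ∃ n : ℤ × ℤ, Pr n ∧ (n.1 : ℝ) ≤ D ∧ 2 ^ i * ((n.1 : ℝ) * |sp n - ctr (M ^ m₂) r|) ≤ 1 ∧ 1 ≤ 2 * 2 ^ i * ((n.1 : ℝ) * |sp n - ctr (M ^ m₂) r|))) := ⟨_, fun _ => rfl⟩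
  obtain ⟨PE, hPE⟩ : ∃ PE : Finset ℕ, PE = (Finset.range (M ^ m₂)).filter (fun r => arc 0 G (M ^ m₂) r = ∅) := ⟨_, rfl⟩
  obtain ⟨P, hPd⟩ : ∃ P : ℕ × ℕ → Finset ℕ, ∀ i, P i = if i.1 = 0 then PI i.2 else if i.1 = 1 then PJ i.2 else PE := ⟨_, fun _ => rfl⟩
  have hcov : ∀ r ∈ Finset.range (M ^ m₂), ∃ i ∈ Finset.range 3 ×ˢ Finset.range J, r ∈ P i := by
    intro r hr
    by_cases hem : arc 0 G (M ^ m₂) r = ∅
    · refine ⟨(2, 0), ?_, ?_⟩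
      · rw [Finset.mem_product, Finset.mem_range, Finset.mem_range]
        exact ⟨by norm_num, by simp only; omega⟩
      · rw [hPd]
        simp only [OfNat.ofNat_ne_zero, OfNat.ofNat_ne_one, if_false]
        rw [hPE, Finset.mem_filter]
        exact ⟨hr, hem⟩
    obtain ⟨k, hk⟩ := Finset.nonempty_of_ne_empty hem
    have hkG : k ∈ G := Finset.filter_subset _ _ hk
    have hM2n : 1 ≤ M ^ m₂ := Nat.one_le_iff_ne_zero.2 hMn0
    have hM0n : 1 ≤ M ^ m₀ := Nat.one_le_pow _ _ (by omega)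
    have h1 := arc_near hM2n hGs hk
    have h2 : |tt 0 k - ctr (M ^ m₀) r₀| ≤ 6 / (M ^ m₀ : ℕ) := by
      rw [hG] at hkG
      exact arc_near hM0n (Finset.Subset.refl _) hkG
    have hctr : |ctr (M ^ m₂) r - ctr (M ^ m₀) r₀| ≤ 12 / (M ^ m₀ : ℕ) := by
      have h3 : ((M ^ m₀ : ℕ) : ℝ) ≤ ((M ^ m₂ : ℕ) : ℝ) := by
        exact_mod_cast Nat.pow_le_pow_right (by omega) hP.m
      have h4 : (0 : ℝ) < ((M ^ m₀ : ℕ) : ℝ) := by exact_mod_cast hM0n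
      have h5 : 6 / ((M ^ m₂ : ℕ) : ℝ) ≤ 6 / ((M ^ m₀ : ℕ) : ℝ) := div_le_div_of_nonneg_left (by norm_num) h4 h3
      have h6 : |ctr (M ^ m₂) r - ctr (M ^ m₀) r₀| ≤ |tt 0 k - ctr (M ^ m₂) r| + |tt 0 k - ctr (M ^ m₀) r₀| := by
        have h7 : ctr (M ^ m₂) r - ctr (M ^ m₀) r₀ = -(tt 0 k - ctr (M ^ m₂) r) + (tt 0 k - ctr (M ^ m₀) r₀) := by ring
        rw [h7]
        refine (abs_add_le _ _).trans ?_
        rw [abs_neg]
      have h8 : 12 / ((M ^ m₀ : ℕ) : ℝ) = 6 / ((M ^ m₀ : ℕ) : ℝ) + 6 / ((M ^ m₀ : ℕ) : ℝ) := by ring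
      rw [h8]
      linarith only [h1, h2, h5, h6]
    have hw : (0 : ℝ) < 24 / ((M ^ m₂ : ℕ) : ℝ) := by
      have : (0 : ℝ) < ((M ^ m₂ : ℕ) : ℝ) := by exact_mod_cast hM2n
      positivity
    rcases classify (τ := ctr (M ^ m₂) r) hD1 hw with ⟨n, hn, hnD, hnt⟩ | ⟨hall, j, n, hn, hnD, hnw, hDj, hq1, hq2⟩
    · -- type I
      have hn1 : 0 < n.1 := hn.2
      have hnN : ((n.1.toNat : ℕ) : ℝ) = (n.1 : ℝ) := by
        have h3 : ((n.1.toNat : ℕ) : ℤ) = n.1 := Int.toNat_of_nonneg hn1.le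
        exact_mod_cast congrArg (fun z : ℤ => (z : ℝ)) h3
      have hn0 : n.1.toNat ≠ 0 := by omega
      have a1 : (2 : ℝ) ^ (Nat.log 2 n.1.toNat) ≤ n.1 := by
        rw [← hnN]
        exact_mod_cast Nat.pow_log_le_self 2 hn0
      have a2 : (n.1 : ℝ) ≤ 2 * 2 ^ (Nat.log 2 n.1.toNat) := by
        rw [← hnN]
        have h3 := (Nat.lt_pow_succ_log_self (by norm_num : 1 < 2) n.1.toNat).le
        have h4 : ((n.1.toNat : ℕ) : ℝ) ≤ (2 : ℝ) ^ (Nat.log 2 n.1.toNat).succ := by exact_mod_cast h3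
        rw [pow_succ] at h4
        linarith only [h4]
      refine ⟨(0, Nat.log 2 n.1.toNat), ?_, ?_⟩
      · rw [Finset.mem_product, Finset.mem_range, Finset.mem_range]
        exact ⟨by norm_num, hJlt _ (a1.trans (hnD.trans hDM))⟩
      · rw [hPd]
        simp only [if_true]
        rw [hPI, Finset.mem_filter]
        refine ⟨hr, hctr, n, hn, a1, a2, ?_, hnt⟩
        rw [← hD2]
        have hn1r : (0 : ℝ) < n.1 := by exact_mod_cast hn1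
        have : (n.1 : ℝ) ^ 2 ≤ D ^ 2 := pow_le_pow_left₀ hn1r.le hnD 2
        linarith only [this]
    · refine ⟨(1, j), ?_, ?_⟩
      · rw [Finset.mem_product, Finset.mem_range, Finset.mem_range]
        refine ⟨by norm_num, hJlt _ ?_⟩
        have hn1r : (1 : ℝ) ≤ n.1 := by exact_mod_cast hn.2
        have h3 : (24 : ℝ) / ((M ^ m₂ : ℕ) : ℝ) ≤ (n.1 : ℝ) * |sp n - ctr (M ^ m₂) r| := by nlinarith only [hnw, hw, hn1r, abs_nonneg (sp n - ctr (M ^ m₂) r)]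
        have h4 : (2 : ℝ) ^ j * (24 / ((M ^ m₂ : ℕ) : ℝ)) ≤ 1 := (mul_le_mul_of_nonneg_left h3 (by positivity)).trans hq1
        push_cast at h4
        rw [mul_div_assoc', div_le_one hMm2] at h4
        have : (0 : ℝ) ≤ 2 ^ j := by positivity
        linarith only [hsm, h4]
      · rw [hPd]
        simp only [one_ne_zero, if_false, if_true]
        rw [hPJ, Finset.mem_filter]
        refine ⟨hr, ?_, hctr, hall, n, hn, hnD, hq1, hq2⟩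
        rw [pow_succ] at hDj
        linarith only [hDj]
  -- the bound of each class
  have hF0 : 0 ≤ FR X N := by linarith only [hF.1]
  have hSe : SG F s₀ l B X G (M ^ m₂) ∅ = 0 := by
    unfold SG
    rw [Finset.sum_empty, ENNReal.zero_rpow_of_pos (by norm_num)]
  have hcl : ∀ i ∈ Finset.range 3 ×ˢ Finset.range J, SG F s₀ l B X G (M ^ m₂) (P i) ≤ ENNReal.ofReal ((C₁ + C₂ + C₃) * X ^ (η / 2) * FR X N) := by
    intro i _
    rw [hPd]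
    by_cases h0 : i.1 = 0
    · rw [if_pos h0]
      by_cases hne : PI i.2 = ∅
      · rw [hne, hSe]
        exact zero_le
      obtain ⟨r, hr⟩ := Finset.nonempty_of_ne_empty hne
      rw [hPI, Finset.mem_filter] at hr
      obtain ⟨-, -, n, hn, b1, b2, b3, -⟩ := hr
      have hA1 : (1 : ℝ) ≤ 2 ^ i.2 := one_le_pow₀ (by norm_num)
      have hA2 : 24 * ((2 : ℝ) ^ i.2) ^ 2 ≤ (M : ℝ) ^ m₂ := by
        have : ((2 : ℝ) ^ i.2) ^ 2 ≤ (n.1 : ℝ) ^ 2 := pow_le_pow_left₀ (by positivity) b1 2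
        linarith only [b3, this]
      have h3 := hI F hF₀ X σ s₀ l (2 ^ i.2) N m₀ m₂ r₀ (PI i.2) hP hk2 hA1 hA2 (by rw [hPI]; exact Finset.filter_subset _ _) (by
        intro r hr
        rw [hPI, Finset.mem_filter] at hr
        exact hr.2)
      rw [hG]
      refine h3.trans (ENNReal.ofReal_le_ofReal ?_)
      gcongr
      linarith only [hC₂, hC₃]
    rw [if_neg h0]
    by_cases h1 : i.1 = 1
    · rw [if_pos h1]
      by_cases hne : PJ i.2 = ∅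
      · rw [hne, hSe]
        exact zero_le
      obtain ⟨r, hr⟩ := Finset.nonempty_of_ne_empty hne
      rw [hPJ, Finset.mem_filter] at hr
      obtain ⟨-, hDQ, -⟩ := hr
      have h3 := hII F hF₀ X σ s₀ l D (2 ^ i.2) N m₀ m₂ r₀ (PJ i.2) hP hk2 hD1 hD2 hDQ (by rw [hPJ]; exact Finset.filter_subset _ _) (by
        intro r hr
        rw [hPJ, Finset.mem_filter] at hr
        exact hr.2.2)
      rw [hG]
      refine h3.trans (ENNReal.ofReal_le_ofReal ?_)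
      gcongr
      linarith only [hC₁, hC₃]
    rw [if_neg h1]
    -- the empty arcs
    have h3 : SG F s₀ l B X G (M ^ m₂) PE ≤ ENNReal.ofReal (((M : ℝ) ^ m₂) ^ 6) := by
      unfold SG
      have h4 : ∑ r ∈ PE, (RN F s₀ l B X (arc 0 G (M ^ m₂) r) + 1) ^ (1 / 6 : ℝ) = (PE.card : ENNReal) := by
        have h5 : ∀ r ∈ PE, (RN F s₀ l B X (arc 0 G (M ^ m₂) r) + 1) ^ (1 / 6 : ℝ) = 1 := by
          intro r hr
          rw [hPE, Finset.mem_filter] at hr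
          rw [hr.2, RN_empty, zero_add, ENNReal.one_rpow]
        rw [Finset.sum_congr rfl h5, Finset.sum_const, nsmul_eq_mul, mul_one]
      rw [h4]
      have h5 : (PE.card : ℝ) ≤ (M : ℝ) ^ m₂ := by
        have h6 : PE.card ≤ M ^ m₂ := by
          rw [hPE]
          exact (Finset.card_filter_le _ _).trans (Finset.card_range _).le
        exact_mod_cast h6
      have h7 : (6 : ℝ) = ((6 : ℕ) : ℝ) := by norm_num
      rw [h7, ENNReal.rpow_natCast, ← ENNReal.ofReal_natCast, ← ENNReal.ofReal_pow (Nat.cast_nonneg _)]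
      exact ENNReal.ofReal_le_ofReal (pow_le_pow_left₀ (Nat.cast_nonneg _) h5 6)
    refine h3.trans (ENNReal.ofReal_le_ofReal ?_)
    have hw4 : (12 / (M : ℝ) ^ m₂) ^ 4 * (X * N) = 12 ^ 4 * ((X * N) / ((M : ℝ) ^ m₂) ^ 4) := by
      rw [div_pow]
      ring
    have hw1 : 1 ≤ (X * N) / ((M : ℝ) ^ m₂) ^ 4 := by
      rw [one_le_div (by positivity)]
      exact hk1
    have hw2 : (X * N) / ((M : ℝ) ^ m₂) ^ 4 ≤ (M : ℝ) ^ 4 := by
      rw [div_le_iff₀ (by positivity), ← hM22, ← pow_add]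
      refine hk2.le.trans (le_of_eq ?_)
      congr 1
      ring
    have h4 := (hnum X N (12 / (M : ℝ) ^ m₂) 1 hX hNr hP.hi one_pos (by
      rw [hw4]
      have h5 : (1 : ℝ) ≤ 12 ^ 4 * ((X * N) / ((M : ℝ) ^ m₂) ^ 4) := one_le_mul_of_one_le_of_one_le (by norm_num) hw1
      exact one_le_mul_of_one_le_of_one_le hb1 h5) (by
      rw [hw4]
      exact mul_le_mul_of_nonneg_left hw2 (by norm_num)) (by positivity) (by
      have h5 : 12 / (M : ℝ) ^ m₂ ≤ 12 := div_le_self (by norm_num) hM21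
      have h6 : (1 : ℝ) ≤ (M : ℝ) ^ 4 := one_le_pow₀ hM1
      linarith only [hw1, hw2, h5])).2.2.2.2.1 hP.lo
    have h5 : ((M : ℝ) ^ m₂) ^ 6 ≤ (X * N) ^ (3 / 2 : ℝ) := by
      have h6 : ((M : ℝ) ^ m₂) ^ 6 = (((M : ℝ) ^ m₂) ^ 4) ^ (3 / 2 : ℝ) := by
        rw [← rpow_natCast _ 4, ← rpow_natCast _ 6, ← rpow_mul hMm2.le]
        congr 1
        norm_num
      rw [h6]
      exact rpow_le_rpow (by positivity) hk1 (by norm_num)
    refine h5.trans (h4.trans ?_)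
    calc C₃ * FR X N = C₃ * 1 * FR X N := by ring
      _ ≤ (C₁ + C₂ + C₃) * X ^ (η / 2) * FR X N := by
          gcongr
          linarith only [hC₁, hC₂]
  refine (ss_cover F s₀ l B X G (M ^ m₂) _ P _ hcov hcl).trans ?_
  rw [← ENNReal.ofReal_mul (by (clear * - hF hPd hJ hJlt hJle hcov hD hD2 hD1 hDM hPJ hG hGs hPE hSe hcl hCC hC hC₅0 hCC5 hK₁ hK₁0 hC₅; positivity))]
  refine ENNReal.ofReal_le_ofReal ?_
  rw [Finset.card_product, Finset.card_range, Finset.card_range]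
  have h1 := hlog X J hX hJle
  calc ((3 * J : ℕ) : ℝ) ^ 6 * ((C₁ + C₂ + C₃) * X ^ (η / 2) * FR X N)
      ≤ (C₄ * X ^ (η / 2)) * ((C₁ + C₂ + C₃) * X ^ (η / 2) * FR X N) := mul_le_mul_of_nonneg_right h1 (by positivity)
    _ = (C₄ * (C₁ + C₂ + C₃)) * (X ^ (η / 2) * X ^ (η / 2)) * FR X N := by ring
    _ = (C₄ * (C₁ + C₂ + C₃)) * X ^ η * FR X N := by
        rw [← rpow_add hX0]
        congr 3
        ring
    _ ≤ C * X ^ η * FR X N := by gcongr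

theorem local_bdG {η ε₀ B₀ B : ℝ} (hη : 0 < η) (hε₀ : 0 < ε₀) (hB₀ : 1 ≤ B₀) (hB : 1 ≤ B) : ∃ (M : ℕ) (C L : ℝ), 2 ≤ M ∧ 1 ≤ C ∧ 1 ≤ L ∧ LocG η ε₀ B₀ B M C L := by
  obtain ⟨M, C₁, B', L, hM, hC₁, hB', hL, hit⟩ := iterG (η := η / 12) (by positivity) hε₀ hB₀ hB (by norm_num : (1 : ℝ) ≤ 4) fun ε hε => by
    obtain ⟨M, hM, C₀, hC₀, hd⟩ := dec12_all (by norm_num : (1 : ℝ) ≤ 2) ε hε
    exact ⟨M, hM, fun n B hB => stepG (by norm_num) (by norm_num) hB₀ hB hM hC₀ hd n⟩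
  have hMr : (2 : ℝ) ≤ (M : ℝ) := by exact_mod_cast hM
  have hM1 : (1 : ℝ) ≤ (M : ℝ) := by linarith
  have hM0 : (0 : ℝ) < (M : ℝ) := by linarith
  obtain ⟨C₂, hC₂, hclA⟩ := classesA (η := η / 2) (by positivity) hε₀ hB₀ (hB.trans hB') hL hM
  obtain ⟨C₃, hC₃, hclB⟩ := classesB (η := η / 2) (by positivity) hε₀ hB₀ (hB.trans hB') hL hM
  refine ⟨M, C₁ ^ 6 * (C₂ + C₃), L, hM, one_le_mul_of_one_le_of_one_le (one_le_pow₀ hC₁) (by linarith), hL, ?_⟩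
  intro F hF₀ X σ s₀ N m₀ r₀ hX hN hlo hhi hσ hgd hσm hm5 hin
  have hX0 : 0 < X := by linarith
  have hNr : (1 : ℝ) ≤ N := by exact_mod_cast hN
  have hN0 : (0 : ℝ) < N := by linarith
  have hNX : (N : ℝ) ≤ X := by
    refine hhi.trans ?_
    calc X ^ (4 / 9 + 1 / 1000 : ℝ) ≤ X ^ (1 : ℝ) := rpow_le_rpow_of_exponent_le hX (by norm_num)
      _ = X := rpow_one X
  have hK1 : 1 ≤ X * N := one_le_mul_of_one_le_of_one_le hX hNr
  have hK0 : 0 < X * N := by linarith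
  have hKε : 0 < (X * N) ^ ε₀ := rpow_pos_of_pos hK0 _
  obtain ⟨l, hl⟩ : ∃ l : ℝ, l = 1 / (M : ℝ) ^ m₀ := ⟨_, rfl⟩
  have hMm : 0 < (M : ℝ) ^ m₀ := by positivity
  have hl0 : 0 < l := by rw [hl]; positivity
  have hlM : l * (M : ℝ) ^ m₀ = 1 := by
    rw [hl]
    field_simp
  -- the level
  obtain ⟨Pm, hPm⟩ : ∃ Pm : ℕ → Prop, ∀ m, Pm m ↔ (M : ℝ) ^ (4 * m) ≤ X * N ∧ (X * N) ^ ε₀ * (M : ℝ) ^ (3 * m) ≤ σ * (l * (X * N)) := ⟨_, fun _ => Iff.rfl⟩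
  have hP0 : Pm m₀ := by
    rw [hPm]
    constructor
    · refine le_trans ?_ hm5
      exact pow_le_pow_right₀ hM1 (by omega)
    · have e1 : (M : ℝ) ^ (5 * m₀) = (M : ℝ) ^ (3 * m₀) * ((M : ℝ) ^ m₀ * (M : ℝ) ^ m₀) := by
        rw [← pow_add, ← pow_add]
        congr 1
        ring
      have h1 : (X * N) ^ ε₀ * l ≤ σ := by
        have h2 : (X * N) ^ ε₀ * l ≤ σ * (M : ℝ) ^ m₀ * l := mul_le_mul_of_nonneg_right hσm hl0.le
        have h3 : σ * (M : ℝ) ^ m₀ * l = σ := by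
          calc σ * (M : ℝ) ^ m₀ * l = σ * (l * (M : ℝ) ^ m₀) := by ring
            _ = σ := by rw [hlM, mul_one]
        rwa [h3] at h2
      have h4 : (M : ℝ) ^ (3 * m₀) ≤ l * (l * (X * N)) := by
        have h5 : (M : ℝ) ^ (3 * m₀) = l * (l * (M : ℝ) ^ (5 * m₀)) := by
          rw [e1]
          calc (M : ℝ) ^ (3 * m₀) = (l * (M : ℝ) ^ m₀) * ((l * (M : ℝ) ^ m₀) * (M : ℝ) ^ (3 * m₀)) := by rw [hlM, one_mul, one_mul]
            _ = _ := by ring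
        rw [h5]
        gcongr
      calc (X * N) ^ ε₀ * (M : ℝ) ^ (3 * m₀) ≤ (X * N) ^ ε₀ * (l * (l * (X * N))) := mul_le_mul_of_nonneg_left h4 hKε.le
        _ = ((X * N) ^ ε₀ * l) * (l * (X * N)) := by ring
        _ ≤ σ * (l * (X * N)) := mul_le_mul_of_nonneg_right h1 (by positivity)
  have hfin : ∃ m, m₀ ≤ m ∧ ¬ Pm m := by
    obtain ⟨n, hn⟩ := pow_unbounded_of_one_lt (X * N) (by linarith only [hMr] : 1 < (M : ℝ))
    refine ⟨m₀ + n, by omega, ?_⟩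
    rw [hPm]
    intro h1
    have h2 : (M : ℝ) ^ n ≤ (M : ℝ) ^ (4 * (m₀ + n)) := pow_le_pow_right₀ hM1 (by omega)
    linarith only [hn, h2, h1.1]
  obtain ⟨m₂, hm₂, hPm₂, hnP⟩ : ∃ m₂, m₀ ≤ m₂ ∧ Pm m₂ ∧ ¬ Pm (m₂ + 1) := by
    classical
    by_contra hcon
    push Not at hcon
    have h1 : ∀ n, Pm (m₀ + n) := by
      intro n
      induction n with
      | zero => exact hP0
      | succ n ih => exact hcon (m₀ + n) (by omega) ih
    obtain ⟨m, hm, hm'⟩ := hfin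
    obtain ⟨n, rfl⟩ := Nat.exists_eq_add_of_le hm
    exact hm' (h1 n)
  rw [hPm] at hPm₂ hnP
  have hpar : ParG F M ε₀ L X σ s₀ (L * l) N m₀ m₂ r₀ := by
    refine ⟨hX, hN, hlo, hhi, hm₂, hPm₂.1, hσ, hgd, hσm, ?_, ?_, ?_⟩
    · have e1 : L * l = L / (M : ℝ) ^ m₀ := by
        rw [hl]
        ring
      rw [e1]
      exact hin
    · rw [mul_assoc, hlM, mul_one]
      exact hL
    · rw [mul_assoc, hlM, mul_one]
  have hin' : In s₀ (L * l) := hpar.inn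
  have h1 := hit F hF₀ X N σ s₀ l (cn N) m₀ m₂ r₀ hX hNr hNX (cn_cone hN).1 hσ hl0 hin' (by
    have h2 : (X * N) ^ ε₀ * l ≤ σ * (M : ℝ) ^ m₀ * l := mul_le_mul_of_nonneg_right hσm hl0.le
    have h3 : σ * (M : ℝ) ^ m₀ * l = σ := by
      calc σ * (M : ℝ) ^ m₀ * l = σ * (l * (M : ℝ) ^ m₀) := by ring
        _ = σ := by rw [hlM, mul_one]
    rwa [h3] at h2) hgd hm₂ hσm hPm₂.1 hPm₂.2
  -- the classes
  have hF := FR_pos hX hNr
  have hF0 : 0 ≤ FR X N := by linarith only [hF.1]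
  have hcl : SG F s₀ (L * l) B' X (arc 0 (cn N) (M ^ m₀) r₀) (M ^ m₂) (Finset.range (M ^ m₂)) ≤ ENNReal.ofReal ((C₂ + C₃) * X ^ (η / 2) * FR X N) := by
    by_cases hA : X * N < (M : ℝ) ^ (4 * m₂ + 4)
    · refine (hclA F hF₀ X σ s₀ (L * l) N m₀ m₂ r₀ hpar hA).trans (ENNReal.ofReal_le_ofReal ?_)
      have : 0 ≤ X ^ (η / 2) := rpow_nonneg hX0.le _
      gcongr
      linarith only [hC₃]
    · push Not at hA
      have h2 : ¬ ((X * N) ^ ε₀ * (M : ℝ) ^ (3 * (m₂ + 1)) ≤ σ * (l * (X * N))) := by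
        intro h3
        refine hnP ⟨?_, h3⟩
        have : 4 * (m₂ + 1) = 4 * m₂ + 4 := by ring
        rwa [this]
      push Not at h2
      refine (hclB F hF₀ X σ s₀ (L * l) N m₀ m₂ r₀ hpar hm5 ?_).trans (ENNReal.ofReal_le_ofReal ?_)
      · have h3 : 3 * (m₂ + 1) = 3 * m₂ + 3 := by ring
        rw [h3] at h2
        calc σ * (L * l * (X * N)) = L * (σ * (l * (X * N))) := by ring
          _ ≤ _ := mul_le_mul_of_nonneg_left h2.le (by linarith only [hL])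
      · have : 0 ≤ X ^ (η / 2) := rpow_nonneg hX0.le _
        gcongr
        linarith only [hC₂]
  have h3 := ENNReal.rpow_le_rpow h1 (by norm_num : (0 : ℝ) ≤ 6)
  rw [rpow6_root', ENNReal.mul_rpow_of_nonneg _ _ (by norm_num : (0 : ℝ) ≤ 6)] at h3
  rw [← hl]
  refine h3.trans ?_
  change _ * SG F s₀ (L * l) B' X (arc 0 (cn N) (M ^ m₀) r₀) (M ^ m₂) (Finset.range (M ^ m₂)) ≤ _
  refine (mul_le_mul_right hcl _).trans ?_
  have h4 : (6 : ℝ) = ((6 : ℕ) : ℝ) := by norm_num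
  rw [h4, ENNReal.rpow_natCast, ← ENNReal.ofReal_pow (by positivity), ← ENNReal.ofReal_mul (by positivity)]
  refine ENNReal.ofReal_le_ofReal (le_of_eq ?_)
  have h5 : (X ^ (η / 12)) ^ 6 = X ^ (η / 2) := by
    rw [← rpow_natCast, ← rpow_mul hX0.le]
    congr 1
    push_cast
    ring
  have h6 : X ^ η = X ^ (η / 2) * X ^ (η / 2) := by
    rw [← rpow_add hX0]
    congr 1
    ring
  rw [mul_pow, h5, h6]
  ring

end Pool.Agent.Helper60.GM
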