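import Pool.Agent.Helper60.GM.Defs

/-!
# Project GM: the moment of a good sector
-/

open MeasureTheory Real Set Filter Topology

set_option autoImplicit false

namespace Pool.Agent.Helper60.GM

open Pool.Agent.Helper92.GC (arc)
open Pool.Agent.Helper60.RT (cn FR)

/-- the moment of a good sector -/
def LocG (η ε₀ B₀ B : ℝ) (M : ℕ) (C L : ℝ) : Prop :=
  ∀ (F : Fam), F.Ok B₀ → ∀ (X σ s₀ : ℝ) (N m₀ r₀ : ℕ), 1 ≤ X → 1 ≤ N → X ^ (1 / 10 : ℝ) ≤ N → (N : ℝ) ≤ X ^ (4 / 9 + 1 / 1000 : ℝ) → 0 < σ → Gd F s₀ σ 4 (arc 0 (cn N) (M ^ m₀) r₀) →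
    (X * N) ^ ε₀ ≤ σ * (M : ℝ) ^ m₀ → (M : ℝ) ^ (5 * m₀) ≤ X * N → In s₀ (L / (M : ℝ) ^ m₀) →
      RN F s₀ (1 / (M : ℝ) ^ m₀) B X (arc 0 (cn N) (M ^ m₀) r₀) ≤ ENNReal.ofReal (C * X ^ η * FR X N)

end Pool.Agent.Helper60.GM
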