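import Pool.Agent.Helper60.GM.E1c
import Pool.Agent.Helper82.GM.Cone

/-!
# Project GM: the moment theorem for the cone, uniform over the class `Fam.Ok B₀`
-/

open MeasureTheory Real Set Filter Topology

set_option autoImplicit false

namespace Pool.Agent.Helper60.GM

open Pool.Agent.Helper60.RT (cn FR)

/-- the moment theorem for the cone -/
theorem momG {η B₀ B : ℝ} (hη : 0 < η) (hB₀ : 1 ≤ B₀) (hB : 1 ≤ B) :
    ∃ C : ℝ, 1 ≤ C ∧ ∀ (F : Fam), F.Ok B₀ → ∀ (X : ℝ) (N : ℕ), 1 ≤ X → 1 ≤ N → X ^ (1 / 10 : ℝ) ≤ N → (N : ℝ) ≤ X ^ (4 / 9 + 1 / 1000 : ℝ) →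
      RN F (1 / 2) (1 / 2) B X (cn N) ≤ ENNReal.ofReal (C * X ^ η * FR X N) :=
  cone_bdG hη hB₀ hB fun _ _ hη' hε' => local_bdG hη' hε' hB₀ hB

end Pool.Agent.Helper60.GM
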